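import Pool.Agent.Helper25.GG.Defs2

/-!
Module GG-4: circuits, components, crossing circuits.
-/

namespace Pool.Agent.Helper25.GG

open Set

namespace Circ

theorem fin {M : Matroid ℕ} (hM : M.E.Finite) {C : Set ℕ} (hC : M.IsCircuit C) : C.Finite :=
  hM.subset hC.subset_ground

theorem trans_aux {M : Matroid ℕ} (hM : M.E.Finite) {x z : ℕ} : ∀ n : ℕ, ∀ C₁ C₂ : Set ℕ,
    M.IsCircuit C₁ → M.IsCircuit C₂ → (C₁ ∩ C₂).Nonempty → x ∈ C₁ → z ∈ C₂ →
    (C₁ ∪ C₂).ncard = n → ∃ C, M.IsCircuit C ∧ x ∈ C ∧ z ∈ C := by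
  intro n
  induction n using Nat.strong_induction_on with
  | _ n ih =>
    intro C₁ C₂ h1 h2 hne hx hz hn
    by_cases hz1 : z ∈ C₁
    · exact ⟨C₁, h1, hx, hz1⟩
    by_cases hx2 : x ∈ C₂
    · exact ⟨C₂, h2, hx2, hz⟩
    obtain ⟨y, hy1, hy2⟩ := hne
    have hfin : (C₁ ∪ C₂).Finite := (fin hM h1).union (fin hM h2)
    obtain ⟨C₃, hC₃s, hC₃, hx3⟩ := h1.strong_elimination h2 hy1 hy2 hx hx2
    obtain ⟨C₄, hC₄s, hC₄, hz4⟩ := h2.strong_elimination h1 hy2 hy1 hz hz1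
    have hC₃u : C₃ ⊆ C₁ ∪ C₂ := hC₃s.trans sdiff_subset
    have hC₄u : C₄ ⊆ C₁ ∪ C₂ := fun e he => by
      rcases (hC₄s he).1 with h | h
      · exact Or.inr h
      · exact Or.inl h
    -- `C₃` meets `C₂ \ C₁`
    have h3 : ∃ w ∈ C₃, w ∈ C₂ ∧ w ∉ C₁ := by
      by_contra hcon
      push Not at hcon
      have hsub : C₃ ⊆ C₁ := by
        intro e he
        rcases hC₃u he with h | h
        · exact h
        · exact hcon e he h
      have := hC₃.eq_of_subset_isCircuit h1 hsub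
      subst this
      exact (hC₃s hy1).2 rfl
    have h4 : ∃ w ∈ C₄, w ∈ C₁ ∧ w ∉ C₂ := by
      by_contra hcon
      push Not at hcon
      have hsub : C₄ ⊆ C₂ := by
        intro e he
        rcases hC₄u he with h | h
        · exact hcon e he h
        · exact h
      have := hC₄.eq_of_subset_isCircuit h2 hsub
      subst this
      exact (hC₄s hy2).2 rfl
    obtain ⟨w3, hw3, hw32, -⟩ := h3
    obtain ⟨w4, hw4, hw41, hw42⟩ := h4
    have hsub32 : C₃ ∪ C₂ ⊆ C₁ ∪ C₂ := union_subset hC₃u subset_union_right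
    rcases (ncard_le_ncard hsub32 hfin).lt_or_eq with hlt | heq
    · exact ih _ (hn ▸ hlt) C₃ C₂ hC₃ h2 ⟨w3, hw3, hw32⟩ hx3 hz rfl
    · have hEq : C₃ ∪ C₂ = C₁ ∪ C₂ := eq_of_subset_of_ncard_le hsub32 heq.ge hfin
      have hw43 : w4 ∈ C₃ := by
        have : w4 ∈ C₃ ∪ C₂ := by rw [hEq]; exact Or.inl hw41
        exact this.resolve_right hw42
      have hss : C₃ ∪ C₄ ⊂ C₁ ∪ C₂ := by
        refine ⟨union_subset hC₃u hC₄u, fun hle => ?_⟩
        have hy : y ∈ C₃ ∪ C₄ := hle (Or.inl hy1)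
        rcases hy with h | h
        · exact (hC₃s h).2 rfl
        · exact (hC₄s h).2 rfl
      exact ih _ (hn ▸ ncard_lt_ncard hss hfin) C₃ C₄ hC₃ hC₄ ⟨w4, hw43, hw4⟩ hx3 hz4 rfl

end Circ

theorem circuit_trans {M : Matroid ℕ} (hM : M.E.Finite) {C₁ C₂ : Set ℕ} (h1 : M.IsCircuit C₁)
    (h2 : M.IsCircuit C₂) (hne : (C₁ ∩ C₂).Nonempty) {x z : ℕ} (hx : x ∈ C₁) (hz : z ∈ C₂) :
    ∃ C, M.IsCircuit C ∧ x ∈ C ∧ z ∈ C :=
  Circ.trans_aux hM _ C₁ C₂ h1 h2 hne hx hz rfl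

theorem comp_sepr {M : Matroid ℕ} (hM : M.E.Finite) (x : ℕ) : Sepr M (comp M x) := by
  rintro C hC ⟨y, hyC, hy⟩ z hz
  rcases hy with rfl | ⟨C', hC', hx', hy'⟩
  · exact Or.inr ⟨C, hC, hyC, hz⟩
  · obtain ⟨C'', hC'', hx'', hz''⟩ := circuit_trans hM hC' hC ⟨y, hy', hyC⟩ hx' hz
    exact Or.inr ⟨C'', hC'', hx'', hz''⟩

theorem comp_circuit {M : Matroid ℕ} (hM : M.E.Finite) {x y z : ℕ} (hy : y ∈ comp M x)
    (hz : z ∈ comp M x) (hyz : y ≠ z) : ∃ C, M.IsCircuit C ∧ y ∈ C ∧ z ∈ C := by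
  rcases hy with rfl | ⟨C, hC, hxC, hyC⟩
  · rcases hz with rfl | ⟨C', hC', hxC', hzC'⟩
    · exact absurd rfl hyz
    · exact ⟨C', hC', hxC', hzC'⟩
  · rcases hz with rfl | ⟨C', hC', hxC', hzC'⟩
    · exact ⟨C, hC, hyC, hxC⟩
    · exact circuit_trans hM hC hC' ⟨x, hxC, hxC'⟩ hyC hzC'

namespace Circ

/-- the case of a circuit which misses `D` -/
theorem miss {M : Matroid ℕ} {C D A : Set ℕ} (hA : M.IsCircuit A) (hAD : (A ∩ D).Nonempty)
    (hmin : ∀ X, M.IsCircuit X → (X ∩ C).Nonempty → (X ∩ D).Nonempty →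
      X \ (C ∪ D) ⊆ A \ (C ∪ D) → A \ (C ∪ D) ⊆ X) {X : Set ℕ} (hX : M.IsCircuit X)
    (hXs : X ⊆ C ∪ D ∪ (A \ (C ∪ D))) (hXF : (X ∩ (A \ (C ∪ D))).Nonempty) (hXD : X ∩ D = ∅) :
    False := by
  obtain ⟨f, hfX, hfA, hfCD⟩ := hXF
  obtain ⟨d, hdA, hdD⟩ := hAD
  have hdX : d ∉ X := fun h => by
    have : d ∈ X ∩ D := ⟨h, hdD⟩
    rw [hXD] at this
    exact this
  obtain ⟨X', hX's, hX', hdX'⟩ := hA.strong_elimination hX hfA hfX hdA hdX
  by_cases hX'C : (X' ∩ C).Nonempty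
  · have hF := hmin X' hX' hX'C ⟨d, hdX', hdD⟩ (by
      rintro e ⟨heX', heCD⟩
      rcases (hX's heX').1 with h | h
      · exact ⟨h, heCD⟩
      · rcases hXs h with h2 | h2
        · exact absurd h2 heCD
        · exact h2)
    exact (hX's (hF ⟨hfA, hfCD⟩)).2 rfl
  · have hsub : X' ⊆ A := by
      intro e he
      rcases (hX's he).1 with h | h
      · exact h
      · rcases hXs h with (h2 | h2) | h2
        · exact absurd ⟨e, he, h2⟩ hX'C
        · have : e ∈ X ∩ D := ⟨h, h2⟩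
          rw [hXD] at this
          exact absurd this (notMem_empty e)
        · exact h2.1
    have := hX'.eq_of_subset_isCircuit hA hsub
    subst this
    exact (hX's hfA).2 rfl

/-- hypothesis of the steps -/
def Hyp (M : Matroid ℕ) (C D F : Set ℕ) : Prop :=
  ∀ X, M.IsCircuit X → X ⊆ C ∪ D ∪ F → X = C ∨ X = D ∨
    (F ⊆ X ∧ (X ∩ C).Nonempty ∧ (X ∩ D).Nonempty)

theorem Hyp.symm {M : Matroid ℕ} {C D F : Set ℕ} (h : Hyp M C D F) : Hyp M D C F := by
  intro X hX hXs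
  rw [union_comm D C] at hXs
  rcases h X hX hXs with h1 | h1 | ⟨h1, h2, h3⟩
  · exact Or.inr (Or.inl h1)
  · exact Or.inl h1
  · exact Or.inr (Or.inr ⟨h1, h3, h2⟩)

theorem half_step {M : Matroid ℕ} (hM : M.E.Finite) {C D F : Set ℕ} (hC : M.IsCircuit C)
    (hD : M.IsCircuit D) (hCD : Disjoint C D) (hF : F.Nonempty) (hFCD : Disjoint F (C ∪ D))
    (h1 : Hyp M C D F) {X : Set ℕ} (hX : M.IsCircuit X) (hXs : X ⊆ C ∪ D ∪ F) (hFX : F ⊆ X)
    (hXC : (X ∩ C).Nonempty) (hXD : (X ∩ D).Nonempty) :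
    ∃ Y, M.IsCircuit Y ∧ Y ⊆ C ∪ D ∪ F ∧ F ⊆ Y ∧ (Y ∩ C).Nonempty ∧ (Y ∩ D).Nonempty ∧
      Y ∩ D = X ∩ D ∧ C.ncard ≤ 2 * (Y ∩ C).ncard := by
  obtain ⟨f, hf⟩ := hF
  obtain ⟨c, hcX, hcC⟩ := hXC
  have hfC : f ∉ C := fun h => (disjoint_left.mp hFCD hf) (Or.inl h)
  have hfD : f ∉ D := fun h => (disjoint_left.mp hFCD hf) (Or.inr h)
  obtain ⟨X2, hX2s, hX2, hfX2⟩ := hX.strong_elimination hC hcX hcC (hFX hf) hfC
  have hX2s' : X2 ⊆ C ∪ D ∪ F := by
    intro e he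
    rcases (hX2s he).1 with h | h
    · exact hXs h
    · exact Or.inl (Or.inl h)
  have hX2c : F ⊆ X2 ∧ (X2 ∩ C).Nonempty ∧ (X2 ∩ D).Nonempty := by
    rcases h1 X2 hX2 hX2s' with h | h | h
    · exact absurd (h ▸ hfX2) hfC
    · exact absurd (h ▸ hfX2) hfD
    · exact h
  have hX2D : X2 ∩ D ⊆ X ∩ D := by
    rintro e ⟨he, heD⟩
    rcases (hX2s he).1 with h | h
    · exact ⟨h, heD⟩
    · exact absurd heD (disjoint_left.mp hCD h)
  -- `D` is not contained in `X ∪ X2`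
  have hDn : ∀ Y, M.IsCircuit Y → Y ⊆ (X ∪ X2) \ {f} → Y = C := by
    intro Y hY hYs
    have hYs' : Y ⊆ C ∪ D ∪ F := fun e he => by
      rcases (hYs he).1 with h | h
      · exact hXs h
      · exact hX2s' h
    rcases h1 Y hY hYs' with h | h | h
    · exact h
    · exfalso
      have hDX : D ⊆ X := by
        intro e he
        rw [← h] at he
        rcases (hYs he).1 with h' | h'
        · exact h'
        · rw [h] at he
          exact (hX2D ⟨h', he⟩).1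
      have := hD.eq_of_subset_isCircuit hX hDX
      subst this
      exact disjoint_left.mp hCD hcC hcX
    · exact absurd rfl (hYs (h.1 hf)).2
  have hd1 : ∀ e ∈ X, e ∉ X2 → e ∈ C := by
    intro e he he2
    obtain ⟨Y, hYs, hY, heY⟩ := hX.strong_elimination hX2 (hFX hf) hfX2 he he2
    rw [hDn Y hY hYs] at heY
    exact heY
  have hXX2 : X ∩ D = X2 ∩ D := by
    apply Subset.antisymm _ hX2D
    rintro e ⟨he, heD⟩
    refine ⟨?_, heD⟩
    by_contra he2
    exact disjoint_left.mp hCD (hd1 e he he2) heD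
  have hCsub : C ⊆ X ∪ X2 := by
    have hcX2 : c ∉ X2 := fun h => (hX2s h).2 rfl
    obtain ⟨Y, hYs, hY, -⟩ := hX.strong_elimination hX2 (hFX hf) hfX2 hcX hcX2
    rw [← hDn Y hY hYs]
    exact hYs.trans sdiff_subset
  have hCcard : C.ncard ≤ (X ∩ C).ncard + (X2 ∩ C).ncard := by
    have hCeq : C ⊆ (X ∩ C) ∪ (X2 ∩ C) := by
      intro e he
      rcases hCsub he with h | h
      · exact Or.inl ⟨h, he⟩
      · exact Or.inr ⟨h, he⟩
    exact (ncard_le_ncard hCeq (((fin hM hX).inter_of_left C).union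
      ((fin hM hX2).inter_of_left C))).trans (ncard_union_le _ _)
  rcases le_total (X ∩ C).ncard (X2 ∩ C).ncard with hle | hle
  · exact ⟨X2, hX2, hX2s', hX2c.1, hX2c.2.1, hX2c.2.2, hXX2.symm, by omega⟩
  · exact ⟨X, hX, hXs, hFX, ⟨c, hcX, hcC⟩, hXD, rfl, by omega⟩

end Circ

open Circ in
theorem crossing {M : Matroid ℕ} (hM : M.E.Finite) {C D : Set ℕ} (hC : M.IsCircuit C)
    (hD : M.IsCircuit D) (hCD : Disjoint C D)
    (honly : ∀ X, M.IsCircuit X → X ⊆ C ∪ D → X = C ∨ X = D)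
    (hcr : ∃ X, M.IsCircuit X ∧ (X ∩ C).Nonempty ∧ (X ∩ D).Nonempty) :
    ∃ X, M.IsCircuit X ∧ (X ∩ C).Nonempty ∧ C.ncard + D.ncard + 2 ≤ 2 * X.ncard := by
  classical
  -- a crossing circuit with the smallest number of elements outside of `C ∪ D`
  have hex : ∃ n, ∃ X, M.IsCircuit X ∧ (X ∩ C).Nonempty ∧ (X ∩ D).Nonempty ∧
      (X \ (C ∪ D)).ncard = n := by
    obtain ⟨X, h1, h2, h3⟩ := hcr
    exact ⟨_, X, h1, h2, h3, rfl⟩
  obtain ⟨A, hA, hAC, hAD, hAn⟩ := Nat.find_spec hex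
  have hmin : ∀ X, M.IsCircuit X → (X ∩ C).Nonempty → (X ∩ D).Nonempty →
      X \ (C ∪ D) ⊆ A \ (C ∪ D) → A \ (C ∪ D) ⊆ X := by
    intro X hX hXC hXD hsub
    have h1 : (A \ (C ∪ D)).ncard ≤ (X \ (C ∪ D)).ncard := by
      rw [hAn]
      exact Nat.find_min' hex ⟨X, hX, hXC, hXD, rfl⟩
    have h2 := eq_of_subset_of_ncard_le hsub h1 ((fin hM hA).sdiff)
    rw [← h2]
    exact sdiff_subset
  set F := A \ (C ∪ D) with hF
  have hFne : F.Nonempty := by
    by_contra h0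
    rw [not_nonempty_iff_eq_empty] at h0
    have hsub : A ⊆ C ∪ D := by
      intro e he
      by_contra hcon
      have : e ∈ F := ⟨he, hcon⟩
      rw [h0] at this
      exact this
    rcases honly A hA hsub with h | h
    · obtain ⟨d, hd1, hd2⟩ := hAD
      rw [h] at hd1
      exact disjoint_left.mp hCD hd1 hd2
    · obtain ⟨d, hd1, hd2⟩ := hAC
      rw [h] at hd1
      exact disjoint_left.mp hCD hd2 hd1
  have hFCD : Disjoint F (C ∪ D) := disjoint_left.mpr fun e he => he.2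
  have hHyp : Hyp M C D F := by
    intro X hX hXs
    by_cases hXF : (X ∩ F).Nonempty
    · right; right
      have hXD : (X ∩ D).Nonempty := by
        by_contra h0
        rw [not_nonempty_iff_eq_empty] at h0
        exact miss hA hAD hmin hX hXs hXF h0
      have hXC : (X ∩ C).Nonempty := by
        by_contra h0
        rw [not_nonempty_iff_eq_empty] at h0
        have hmin' : ∀ X, M.IsCircuit X → (X ∩ D).Nonempty → (X ∩ C).Nonempty →
            X \ (D ∪ C) ⊆ A \ (D ∪ C) → A \ (D ∪ C) ⊆ X := by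
          intro X hX hXD hXC hsub
          rw [union_comm D C] at hsub ⊢
          exact hmin X hX hXC hXD hsub
        refine miss (C := D) (D := C) hA hAC hmin' hX ?_ ?_ h0
        · rw [union_comm D C]; exact hXs
        · rw [union_comm D C]; exact hXF
      refine ⟨hmin X hX hXC hXD ?_, hXC, hXD⟩
      rintro e ⟨he, heCD⟩
      exact (hXs he).resolve_left heCD
    · rw [not_nonempty_iff_eq_empty] at hXF
      have hsub : X ⊆ C ∪ D := by
        intro e he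
        rcases hXs he with h | h
        · exact h
        · have : e ∈ X ∩ F := ⟨he, h⟩
          rw [hXF] at this
          exact absurd this (notMem_empty e)
      rcases honly X hX hsub with h | h
      · exact Or.inl h
      · exact Or.inr (Or.inl h)
  have hAs : A ⊆ C ∪ D ∪ F := by
    intro e he
    by_cases h : e ∈ C ∪ D
    · exact Or.inl h
    · exact Or.inr ⟨he, h⟩
  obtain ⟨Y, hY, hYs, hFY, hYC, hYD, -, hY2⟩ := half_step hM hC hD hCD hFne hFCD hHyp hA hAs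
    sdiff_subset hAC hAD
  obtain ⟨Z, hZ, hZs, hFZ, hZD, hZC, hZeq, hZ2⟩ := half_step hM hD hC hCD.symm hFne
    (by rw [union_comm]; exact hFCD) hHyp.symm hY (by rw [union_comm D C]; exact hYs) hFY hYD hYC
  refine ⟨Z, hZ, hZC, ?_⟩
  have hZfin := fin hM hZ
  have h1 : (Z ∩ C).ncard + (Z ∩ D).ncard + F.ncard ≤ Z.ncard := by
    have hd1 : Disjoint (Z ∩ C) (Z ∩ D) :=
      hCD.mono inter_subset_right inter_subset_right
    have hd2 : Disjoint ((Z ∩ C) ∪ (Z ∩ D)) F := by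
      refine (hFCD.mono_right ?_).symm
      rintro e (h | h)
      · exact Or.inl h.2
      · exact Or.inr h.2
    rw [← ncard_union_eq hd1 (hZfin.inter_of_left C) (hZfin.inter_of_left D),
      ← ncard_union_eq hd2 ((hZfin.inter_of_left C).union (hZfin.inter_of_left D))
        (hZfin.subset hFZ)]
    refine ncard_le_ncard ?_ hZfin
    rintro e ((h | h) | h)
    · exact h.1
    · exact h.1
    · exact hFZ h
  have h2 : 1 ≤ F.ncard := by
    rw [Nat.one_le_iff_ne_zero, Ne, ncard_eq_zero (hZfin.subset hFZ)]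
    exact hFne.ne_empty
  rw [hZeq] at h1
  omega

theorem drop {M : Matroid ℕ} (hM : M.E.Finite) {x : ℕ} {C : Set ℕ} (hC : M.IsCircuit C)
    (hCx : C ⊆ comp M x) (hmax : ∀ X, M.IsCircuit X → X ⊆ comp M x → X.ncard ≤ C.ncard)
    {D : Set ℕ} (hD : (M.contract C).IsCircuit D) (hDx : D ⊆ comp M x) :
    D.ncard < C.ncard := by
  have hDE : D ⊆ M.E \ C := hD.subset_ground
  have hDC : Disjoint C D := disjoint_left.mpr fun e he heD => (hDE heD).2 he
  have hDfin : D.Finite := hM.subset (hDE.trans sdiff_subset)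
  obtain ⟨Y, hY, hDY, hYs⟩ := hD.exists_subset_isCircuit_of_contract
  have hYx : Y ⊆ comp M x := fun e he => by
    rcases hYs he with h | h
    · exact hDx h
    · exact hCx h
  have hYle := hmax Y hY hYx
  have hDle := ncard_le_ncard hDY (Circ.fin hM hY)
  rcases hDle.lt_or_eq with hlt | heq
  · omega
  have hDeq : D = Y := eq_of_subset_of_ncard_le hDY heq.ge (Circ.fin hM hY)
  subst hDeq
  rcases hYle.lt_or_eq with hlt | hcard
  · exact hlt
  exfalso
  have honly : ∀ X, M.IsCircuit X → X ⊆ C ∪ D → X = C ∨ X = D := by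
    intro X hX hXs
    by_cases hXC : X ⊆ C
    · exact Or.inl (hX.eq_of_subset_isCircuit hC hXC)
    · right
      have hdep := hX.contract_dep_of_not_subset hXC
      have hsub : X \ C ⊆ D := by
        rintro e ⟨he, heC⟩
        exact (hXs he).resolve_left heC
      have heq2 := hD.eq_of_dep_subset hdep hsub
      have hDX : D ⊆ X := by rw [← heq2]; exact sdiff_subset
      exact (hY.eq_of_subset_isCircuit hX hDX).symm
  obtain ⟨c, hc⟩ := hC.nonempty
  obtain ⟨d, hd⟩ := hY.nonempty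
  have hcd : c ≠ d := fun h => disjoint_left.mp hDC hc (h ▸ hd)
  obtain ⟨X, hX, hcX, hdX⟩ := comp_circuit hM (hCx hc) (hDx hd) hcd
  obtain ⟨Z, hZ, ⟨e, heZ, heC⟩, hZ2⟩ := crossing hM hC hY hDC honly ⟨X, hX, ⟨c, hcX, hc⟩,
    ⟨d, hdX, hd⟩⟩
  have := hmax Z hZ (comp_sepr hM x Z hZ ⟨e, heZ, hCx heC⟩)
  omega

end Pool.Agent.Helper25.GG
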